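import Pool.Agent.W_448s5_h63.FourD

/-! The general identity (42) at a good level, any number of maximal elements. -/

namespace Pool.Agent.GaussPoset.Win

set_option linter.unusedSectionVars false

open Finset

universe u

variable {P : Type u} [Fintype P] [PartialOrder P] [DecidableEq P] {r : ℕ}

lemma S5_card_CC (H : Gr P r) {i : ℕ} (hi : i ≤ r) {p : P × P} (hp : p ∈ CC P i) :
    4 ≤ (lv P i).card := by
  classical
  have h := mem_CC.1 hp
  have hs1 : sts i p.1 ∪ stD i p.2 ⊆ lv P i := by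
    intro v hv
    rcases Finset.mem_union.1 hv with h | h
    · exact mem_lv.2 (mem_sts.1 h).1
    · exact mem_lv.2 (mem_stD.1 h).1
  have h1 := Finset.card_le_card hs1
  rw [Finset.card_union_of_disjoint h.2.2, S5_card_sts H h.1, S5_card_stD H h.2.1] at h1
  omega

/-- The general identity (42): at a good level `i` of a Gaussian poset (any number of maximal elements,
nothing assumed about the other levels). `Z3 - ZV` counts the elements of level `i + 2` with three sites
and no common site of their covers, `X3 - XV` the same above, `DDf`, `DUf` are the unordered pairs in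
`PD`, `PU` with disjoint sites, `CC` the pairs in `PD × PU` with disjoint sites. -/
theorem I42_gen (H : Gr P r) {i : ℕ} (hi : 1 ≤ i) (hi2 : i + 1 ≤ r) (hg : Good P i) :
    -((Z3 P i).card : ℤ) + (ZV P i).card - (X3 P i).card + (XV P i).card - (CC P i).card +
      (DDf P i).card + (DUf P i).card = 0 := by
  classical
  obtain ⟨psi, hM⟩ := good_mat H hg
  have hir : i ≤ r := by omega
  have hZ : ∀ z ∈ Z3 P i, (uc z).card = 2 ∧ 3 ≤ (lv P i).card := by
    intro z hz
    have h1 := mem_Z3.1 hz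
    have h2 := up_le_four H h1.1
    have h3 := uc_card_le H z
    omega
  have hX : ∀ x ∈ X3 P i, (dc x).card = 2 ∧ 3 ≤ (lv P i).card := by
    intro x hx
    have h1 := mem_X3.1 hx
    have h2 := dn_le_four H hir h1.1
    have h3 := dc_card_le H x
    omega
  have hsum := core_sum_set H hi hi2 hM 4 1
    (fun e hc hn => by
      rcases S42g_key H hi hi2 hg hM hc hn.le with h | h
      · exact h
      · have := (S42g_core H hir psi h).2
        omega)
    (S42g P i) (fun e he => S42g_core H hir psi he)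
    (fun e hc hn hne => by
      rcases S42g_key H hi hi2 hg hM hc hn.le with h | h
      · exact h
      · exact absurd h hne)
  rw [sum_S42g H, sum_S42 H] at hsum
  by_cases hb : 3 ≤ (lv P i).card
  swap
  · have z1 : Z3 P i = ∅ := Finset.eq_empty_iff_forall_notMem.2 fun z hz => hb (hZ z hz).2
    have z2 : X3 P i = ∅ := Finset.eq_empty_iff_forall_notMem.2 fun z hz => hb (hX z hz).2
    have z3 : ZV P i = ∅ := Finset.eq_empty_iff_forall_notMem.2 fun p hp =>
      hb (hZ p.1 (mem_ZV.1 hp).1).2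
    have z4 : XV P i = ∅ := Finset.eq_empty_iff_forall_notMem.2 fun p hp =>
      hb (hX p.1 (mem_XV.1 hp).1).2
    have z5 : CC P i = ∅ := Finset.eq_empty_iff_forall_notMem.2 fun p hp =>
      hb (by have := S5_card_CC H hir hp; omega)
    have z6 : DDf P i = ∅ := Finset.eq_empty_iff_forall_notMem.2 fun T hT => by
      obtain ⟨z, z', hz, hz', -, hd, -⟩ := mem_DDf.1 hT
      have := (trm_cl_cl H hir hz hz' hd).1
      omega
    have z7 : DUf P i = ∅ := Finset.eq_empty_iff_forall_notMem.2 fun T hT => by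
      obtain ⟨z, z', hz, hz', -, hd, -⟩ := mem_DUf.1 hT
      have := (trm_cu_cu H hir hz hz' hd).1
      omega
    rw [z1, z2, z3, z4, z5, z6, z7]
    simp
  obtain ⟨b, hbdef⟩ : ∃ b, (lv P i).card = b + 2 := ⟨(lv P i).card - 2, by omega⟩
  have e1 : ∑ z ∈ Z3 P i, trm i (cl z + sg z) = ∑ z ∈ Z3 P i, (dd ^ b * xx ^ 5) := by
    refine Finset.sum_congr rfl fun z hz => ?_
    rw [trm_cl_z H hir (mem_Z3.1 hz).1, (mem_Z3.1 hz).2, (hZ z hz).1,
      show 1 + ((lv P i).card - 3) = b by omega, mul_comm]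
  have e2 : ∑ p ∈ ZV P i, trm i (cl p.1 + sg p.2) = ∑ p ∈ ZV P i, (dd ^ b * xx ^ 2) := by
    refine Finset.sum_congr rfl fun p hp => ?_
    have hp' := mem_ZV.1 hp
    rw [trm_cl_v H hir (mem_Z3.1 hp'.1).1 (mem_sts.1 hp'.2.1).1 (mem_sts.1 hp'.2.1).2 hp'.2.2,
      (mem_Z3.1 hp'.1).2, show 3 - 1 = 2 by omega,
      show (lv P i).card - 2 = b by omega, mul_comm]
  have e3 : ∑ x ∈ X3 P i, trm i (cu x + sg x) = ∑ x ∈ X3 P i, (dd ^ b * xi ^ 3) := by
    refine Finset.sum_congr rfl fun x hx => ?_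
    rw [trm_cu_x H hir (mem_X3.1 hx).1, (mem_X3.1 hx).2, (hX x hx).1,
      show 1 + ((lv P i).card - 3) = b by omega, show 2 + 1 = 3 by omega, mul_comm]
  have e4 : ∑ p ∈ XV P i, trm i (cu p.1 + sg p.2) = ∑ p ∈ XV P i, (dd ^ b * 1) := by
    refine Finset.sum_congr rfl fun p hp => ?_
    have hp' := mem_XV.1 hp
    rw [trm_cu_v H hir (mem_X3.1 hp'.1).1 (mem_stD.1 hp'.2.1).1 (mem_stD.1 hp'.2.1).2 hp'.2.2,
      (mem_X3.1 hp'.1).2, show 3 - 1 = 2 by omega,
      show (lv P i).card - 2 = b by omega, mul_one]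
  have e5 : ∑ p ∈ CC P i, trm i (cl p.1 + cu p.2) = ∑ p ∈ CC P i, (dd ^ b * (xi * xx ^ 2)) := by
    refine Finset.sum_congr rfl fun p hp => ?_
    have hp' := mem_CC.1 hp
    rw [trm_cl_cu H hir hp'.1 hp'.2.1 hp'.2.2, show (lv P i).card - 2 = b by omega, mul_comm]
  have e6 : ∑ T ∈ DDf P i, trm i (clS T) = ∑ T ∈ DDf P i, (dd ^ b * xx ^ 4) := by
    refine Finset.sum_congr rfl fun T hT => ?_
    obtain ⟨z, z', hz, hz', hne, hd, rfl⟩ := mem_DDf.1 hT
    rw [clS_pair hne, (trm_cl_cl H hir hz hz' hd).2, show (lv P i).card - 2 = b by omega, mul_comm]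
  have e7 : ∑ T ∈ DUf P i, trm i (cuS T) = ∑ T ∈ DUf P i, (dd ^ b * xi ^ 2) := by
    refine Finset.sum_congr rfl fun T hT => ?_
    obtain ⟨z, z', hz, hz', hne, hd, rfl⟩ := mem_DUf.1 hT
    rw [cuS_pair hne, (trm_cu_cu H hir hz hz' hd).2, show (lv P i).card - 2 = b by omega, mul_comm]
  rw [e1, e2, e3, e4, e5, e6, e7] at hsum
  simp only [Finset.sum_const, nsmul_eq_mul] at hsum
  rw [hbdef, show b + 2 - 1 = b + 1 by omega,
    show ((Z3 P i).card : A) * (dd ^ b * xx ^ 5) + ((ZV P i).card : A) * (dd ^ b * xx ^ 2) +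
      ((X3 P i).card : A) * (dd ^ b * xi ^ 3) + ((XV P i).card : A) * (dd ^ b * 1) +
      ((CC P i).card : A) * (dd ^ b * (xi * xx ^ 2)) + ((DDf P i).card : A) * (dd ^ b * xx ^ 4) +
      ((DUf P i).card : A) * (dd ^ b * xi ^ 2) =
      dd ^ b * (((Z3 P i).card : A) * xx ^ 5 + ((ZV P i).card : A) * xx ^ 2 +
      ((X3 P i).card : A) * xi ^ 3 + ((XV P i).card : A) +
      ((CC P i).card : A) * (xi * xx ^ 2) + ((DDf P i).card : A) * xx ^ 4 +
      ((DUf P i).card : A) * xi ^ 2) by ring] at hsum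
  have h5 := cc_of_dvd hsum
  simp only [map_add, map_mul, map_pow, map_natCast, cc_xx, cc_xi] at h5
  norm_num at h5
  linarith

end Pool.Agent.GaussPoset.Win
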