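import Pool.Agent.W_448win_h16.PlE

/-! Two elements of `PD` with disjoint sites: the configuration `cl z + cl z'` (general identity (42),
any number of maximal elements). -/

namespace Pool.Agent.GaussPoset.Win

set_option linter.unusedSectionVars false

open Finset

universe u

variable {P : Type u} [Fintype P] [PartialOrder P] [DecidableEq P] {r : ℕ}

/-- label one on `z`, `z'` and their only upper covers `w ≠ w'`: `w` and `w'` are free, `z` and `z'` have
`GU`, the sites above `w` or `w'` have `FD`; all other lower elements have label `0`, `GU` and no `FD`. -/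
theorem Fe_cl_cl (H : Gr P r) {i : ℕ} (hi : i ≤ r) {z z' w w' : P} (hz : lev z = i + 2)
    (hz' : lev z' = i + 2) (hw : uc z = {w}) (hw' : uc z' = {w'}) (hne : w ≠ w') (S : Finset P) :
    Fe i (cl z + cl z') S = dd ^ 2 * chi (sts i z ∪ sts i z') ∅ S := by
  classical
  set e : P → ℕ := cl z + cl z' with he
  have hev : ∀ x, e x = cl z x + cl z' x := fun x => rfl
  have hmw : w ∈ uc z := by rw [hw]; exact mem_singleton_self w
  have hmw' : w' ∈ uc z' := by rw [hw']; exact mem_singleton_self w'
  have hlw := ExpC_lev_uc H hz hmw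
  have hlw' := ExpC_lev_uc H hz' hmw'
  have hzz : z ≠ z' := by
    rintro rfl
    rw [hw] at hw'
    exact hne (Finset.singleton_injective hw')
  have hcl : ∀ x, 0 < cl z x → x = z ∨ x = w := by
    intro x hx
    rcases ExpC_cl_pos hx with h | h
    · exact Or.inl h
    · rw [hw, mem_singleton] at h
      exact Or.inr h
  have hcl' : ∀ x, 0 < cl z' x → x = z' ∨ x = w' := by
    intro x hx
    rcases ExpC_cl_pos hx with h | h
    · exact Or.inl h
    · rw [hw', mem_singleton] at h
      exact Or.inr h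
  have hle1 : ∀ x, e x ≤ 1 := by
    intro x
    rw [hev]
    have h1 := ExpC_cl_le z x
    have h2 := ExpC_cl_le z' x
    by_contra hcon
    have h3 := hcl x (by omega)
    have h4 := hcl' x (by omega)
    rcases h3 with h3 | h3 <;> rcases h4 with h4 | h4
    · exact hzz (h3.symm.trans h4)
    · rw [h3] at h4; rw [h4] at hz; omega
    · rw [h3] at h4; rw [← h4] at hz'; omega
    · exact hne (h3.symm.trans h4)
  have hez : e z = 1 := by
    have h1 := hle1 z
    have h2 : cl z z = 1 := ExpC_cl_z z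
    have h3 := hev z
    omega
  have hez' : e z' = 1 := by
    have h1 := hle1 z'
    have h2 : cl z' z' = 1 := ExpC_cl_z z'
    have h3 := hev z'
    omega
  have hew : e w = 1 := by
    have h1 := hle1 w
    have h2 : cl z w = 1 := ExpC_cl_uc hmw
    have h3 := hev w
    omega
  have hew' : e w' = 1 := by
    have h1 := hle1 w'
    have h2 : cl z' w' = 1 := ExpC_cl_uc hmw'
    have h3 := hev w'
    omega
  have hpos : ∀ {x}, 0 < e x → (x = z ∨ x = z') ∨ (x = w ∨ x = w') := by
    intro x hx
    rw [hev] at hx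
    rcases Nat.eq_zero_or_pos (cl z x) with h | h
    · rcases hcl' x (by omega) with h1 | h1
      · exact Or.inl (Or.inr h1)
      · exact Or.inr (Or.inr h1)
    · rcases hcl x h with h1 | h1
      · exact Or.inl (Or.inl h1)
      · exact Or.inr (Or.inl h1)
  have hlow : ∀ x, 0 < e x → i < lev x := by
    intro x hx
    rcases hpos hx with (h | h) | (h | h) <;> rw [h] <;> omega
  have h0 : ∀ u, lev u < i → e u = 0 := by
    intro u hu
    by_contra hcon
    have := hlow u (Nat.pos_of_ne_zero hcon)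
    omega
  have hs0 : ∀ u, lev u = i → e u = 0 := by
    intro u hu
    by_contra hcon
    have := hlow u (Nat.pos_of_ne_zero hcon)
    omega
  have hnear : ∀ {x}, lev x = i + 1 → 0 < e x → x = w ∨ x = w' := by
    intro x hx hx2
    rcases hpos hx2 with (h | h) | h
    · rw [h] at hx; omega
    · rw [h] at hx; omega
    · exact h
  have hFD : ∀ x, i < lev x → ¬ FD e x := by
    rintro x hx ⟨t, ht, hlt⟩
    have h1 := hle1 t
    have h2 : e x = 0 := by omega
    have h4 := ExpC_cov H ht
    rcases hpos (x := t) (by omega) with (h | h) | (h | h)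
    · have h3 : x ∈ uc z := mem_uc.2 (h ▸ ht)
      rw [hw, mem_singleton] at h3
      rw [h3] at h2; omega
    · have h3 : x ∈ uc z' := mem_uc.2 (h ▸ ht)
      rw [hw', mem_singleton] at h3
      rw [h3] at h2; omega
    · rw [h] at h4; omega
    · rw [h] at h4; omega
  have hAL : AL i e = sts i z ∪ sts i z' := by
    ext v
    unfold AL
    rw [Finset.mem_filter, mem_lv, Finset.mem_union, mem_sts_iff H hz, mem_sts_iff H hz']
    constructor
    · rintro ⟨hv, t, ht, hlt⟩
      have h3 := ExpC_cov H ht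
      rcases hnear (x := t) (by omega) (by omega) with h | h
      · exact Or.inl ⟨w, hmw, mem_uc.2 (h ▸ ht)⟩
      · exact Or.inr ⟨w', hmw', mem_uc.2 (h ▸ ht)⟩
    · rintro (⟨t, ht, htv⟩ | ⟨t, ht, htv⟩)
      · rw [hw, mem_singleton] at ht
        subst ht
        have h3 := ExpC_cov H (mem_uc.1 htv)
        refine ⟨by omega, t, mem_uc.1 htv, ?_⟩
        rw [hs0 v (by omega), hew]
        exact one_pos
      · rw [hw', mem_singleton] at ht
        subst ht
        have h3 := ExpC_cov H (mem_uc.1 htv)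
        refine ⟨by omega, t, mem_uc.1 htv, ?_⟩
        rw [hs0 v (by omega), hew']
        exact one_pos
  rw [ExpC_Fe H hi h0 ∅ {w, w'} ?_ ?_ ?_, hAL, Finset.card_pair hne]
  · simp
  · intro x
    constructor
    · rintro ⟨h1, h2⟩
      exact absurd h2 (hFD x h1)
    · intro h
      exact absurd h (Finset.notMem_empty _)
  · intro x
    rw [mem_insert, mem_singleton]
    constructor
    · rintro ⟨h1, -, h3⟩
      by_contra hx
      apply h3
      by_cases hxz : x = z
      · exact ⟨w, by rw [hxz]; exact mem_uc.1 hmw, by rw [hxz, hez, hew]⟩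
      · by_cases hxz' : x = z'
        · exact ⟨w', by rw [hxz']; exact mem_uc.1 hmw', by rw [hxz', hez', hew']⟩
        · refine ExpC_GU H (by omega) ?_
          by_contra hne2
          rcases hpos (Nat.pos_of_ne_zero hne2) with (h | h) | h
          · exact hxz h
          · exact hxz' h
          · exact hx h
    · intro hx
      have h1 : lev x = i + 1 ∧ e x = 1 := by
        rcases hx with h | h <;> rw [h] <;> exact ⟨by omega, by omega⟩
      refine ⟨by omega, hFD x (by omega), ?_⟩
      rintro ⟨y, hy, hle⟩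
      have h2 := ExpC_cov H hy
      have h3 := hs0 y (by omega)
      omega
  · rintro x h1 ⟨h2, -⟩
    exact hFD x h1 h2

/-- the unique upper cover of an element of `PD` -/
lemma S5_uc_PD {i : ℕ} {z : P} (hz : z ∈ PD P i) : ∃ w, uc z = {w} ∧ (uc w).card = 2 := by
  have hz' := PlD_mem_PD.1 hz
  obtain ⟨w, hw1, hw2⟩ := hz'.2.2
  refine ⟨w, ?_, hw2⟩
  obtain ⟨a, ha⟩ := Finset.card_eq_one.1 hz'.2.1
  have h : w ∈ uc z := mem_uc.2 hw1
  rw [ha, mem_singleton] at h
  rw [ha, h]

/-- the unique lower cover of an element of `PU` -/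
lemma S5_dc_PU {i : ℕ} {x : P} (hx : x ∈ PU P i) : ∃ u, dc x = {u} ∧ (dc u).card = 2 := by
  have hx' := PlD_mem_PU.1 hx
  obtain ⟨u, hu1, hu2⟩ := hx'.2.2
  refine ⟨u, ?_, hu2⟩
  obtain ⟨a, ha⟩ := Finset.card_eq_one.1 hx'.2.1
  have h : u ∈ dc x := mem_dc.2 hu1
  rw [ha, mem_singleton] at h
  rw [ha, h]

lemma S5_card_sts (H : Gr P r) {i : ℕ} {z : P} (hz : z ∈ PD P i) : (sts i z).card = 2 := by
  obtain ⟨w, hw, hw2⟩ := S5_uc_PD hz
  rw [ClE_sts H (PlD_mem_PD.1 hz).1 hw, hw2]

lemma S5_card_stD (H : Gr P r) {i : ℕ} {x : P} (hx : x ∈ PU P i) : (stD i x).card = 2 := by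
  obtain ⟨u, hu, hu2⟩ := S5_dc_PU hx
  rw [ClE_stD H (PlD_mem_PU.1 hx).1 hu, hu2]

/-- two elements of `PD` with disjoint sites: the value of the term -/
theorem trm_cl_cl (H : Gr P r) {i : ℕ} (hi : i ≤ r) {z z' : P} (hz : z ∈ PD P i)
    (hz' : z' ∈ PD P i) (hd : Disjoint (sts i z) (sts i z')) :
    4 ≤ (lv P i).card ∧ trm i (cl z + cl z') = xx ^ 4 * dd ^ ((lv P i).card - 2) := by
  classical
  obtain ⟨w, hw, hw2⟩ := S5_uc_PD hz
  obtain ⟨w', hw', hw2'⟩ := S5_uc_PD hz'
  have hc := S5_card_sts H hz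
  have hc' := S5_card_sts H hz'
  have hlz := (PlD_mem_PD.1 hz).1
  have hlz' := (PlD_mem_PD.1 hz').1
  have hne : w ≠ w' := by
    rintro rfl
    rw [ClE_sts H hlz hw, ClE_sts H hlz' hw', disjoint_self] at hd
    have h1 : (uc w).card = 0 := by rw [Finset.card_eq_zero]; exact hd
    omega
  have hs1 : sts i z ∪ sts i z' ⊆ lv P i := by
    intro v hv
    rcases Finset.mem_union.1 hv with h | h
    · exact mem_lv.2 (mem_sts.1 h).1
    · exact mem_lv.2 (mem_sts.1 h).1
  have hcu : (sts i z ∪ sts i z').card = 4 := by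
    rw [Finset.card_union_of_disjoint hd, hc, hc']
  have hcard : 4 ≤ (lv P i).card := by
    rw [← hcu]; exact Finset.card_le_card hs1
  refine ⟨hcard, ?_⟩
  have hfun : Fe i (cl z + cl z') = fun S => dd ^ 2 * chi (sts i z ∪ sts i z') ∅ S := by
    funext S
    exact Fe_cl_cl H hi hlz hlz' hw hw' hne S
  rw [← II_Fe, hfun, ExpD_II_mul, II_chi hs1 (Finset.empty_subset _),
    if_pos (Finset.disjoint_empty_right _), hcu, Finset.card_empty]
  obtain ⟨b, hb⟩ : ∃ b, (lv P i).card = b + 4 := ⟨(lv P i).card - 4, by omega⟩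
  rw [hb, show b + 4 - 4 - 0 = b by omega, show b + 4 - 2 = b + 2 by omega]
  ring

end Pool.Agent.GaussPoset.Win
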