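import Pool.Agent.W_448s5_h63.FourA
import Pool.Agent.W_448win_h16.ClD

/-! Cores of energy at most four without any bound on `PD` (general identity (42)). -/

namespace Pool.Agent.GaussPoset.Win

set_option linter.unusedSectionVars false

open Finset OrderDual

universe u

variable {P : Type u} [Fintype P] [PartialOrder P] [DecidableEq P] {r : ℕ}

/-- the second alternative of `two_touched`: cheap, or label one on two elements of `PD` with disjoint
sites and on their upper covers -/
lemma S5_second (H : Gr P r) {i : ℕ} (hi2 : i ≤ r)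
    (h3 : ∀ z : P, lev z = i + 2 → up i z ≤ 3) {e : P → ℕ} (hB : AdmU i e)
    (h2 : TU i e = ∅) (hT : (TL i e).card = 2) (hL : (LF i e).card ≤ 2)
    (he : ∀ x, e x = if x ∈ TL i e ∪ LF i e then 1 else 0) :
    Cheap 1 i e ∨ ∃ z z', z ∈ PD P i ∧ z' ∈ PD P i ∧ z ≠ z' ∧ Disjoint (sts i z) (sts i z') ∧
      LF i e = {z, z'} ∧ e = cl z + cl z' := by
  classical
  have hUF : UF i e = ∅ := by
    rw [Finset.eq_empty_iff_forall_notMem]
    intro x hx
    have h4 : lev x + 2 ≤ i ∧ 0 < e x := by
      unfold UF at hx; simpa using hx
    have h5 := far_zero_of_TU H hi2 hB h2 h4.1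
    omega
  by_cases hcon : ((TL i e).biUnion uc).card ≤ 2 + 1
  · exact Or.inl (cheap_ind H hi2 hT (by rw [h2, hUF]; rfl) he 1 hcon)
  right
  obtain ⟨w, w', hww, hTL⟩ := Finset.card_eq_two.1 hT
  have hwm : w ∈ TL i e := by rw [hTL]; simp
  have hwm' : w' ∈ TL i e := by rw [hTL]; simp
  have hbi : (TL i e).biUnion uc = uc w ∪ uc w' := by
    rw [hTL, Finset.biUnion_insert, Finset.singleton_biUnion]
  have hle := Finset.card_union_add_card_inter (uc w) (uc w')
  rw [hbi] at hcon
  have h5 := uc_card_le H w
  have h6 := uc_card_le H w'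
  have h7 : (uc w).card = 2 := by omega
  have h8 : (uc w').card = 2 := by omega
  have hdis : Disjoint (uc w) (uc w') := by
    rw [Finset.disjoint_iff_inter_eq_empty, ← Finset.card_eq_zero]
    omega
  have key : ∀ x ∈ TL i e, (uc x).card = 2 → ∃ z ∈ PD P i, uc z = {x} ∧ z ∈ LF i e := by
    intro x hx hx2
    obtain ⟨hl, z, hz, hz2⟩ := ClC_mem_TL.1 hx
    have hlz := ClC_lev H hz
    have hsub : uc z ⊆ TL i e := by
      intro y hy
      have h9 := mem_uc.1 hy
      have h10 := ClC_lev H h9
      exact ClC_mem_TL.2 ⟨by omega, z, h9, hz2⟩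
    have hc := uc_card_le H z
    have hxz : x ∈ uc z := mem_uc.2 hz
    have hpos : 0 < (uc z).card := Finset.card_pos.2 ⟨x, hxz⟩
    have hne2 : (uc z).card ≠ 2 := by
      intro h9
      have h10 : uc z = TL i e := Finset.eq_of_subset_of_card_le hsub (by omega)
      have h11 := h3 z (by omega)
      rw [← card_sts, ClC_sts H (by omega), h10, hbi] at h11
      omega
    have h1c : (uc z).card = 1 := by omega
    refine ⟨z, ClC_mem_PD.2 ⟨by omega, h1c, x, hz, hx2⟩, ?_, ClC_mem_LF.2 ⟨by omega, hz2⟩⟩
    obtain ⟨t, ht⟩ := Finset.card_eq_one.1 h1c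
    rw [ht, mem_singleton] at hxz
    rw [ht, hxz]
  obtain ⟨z, hz, hz2, hz3⟩ := key w hwm h7
  obtain ⟨z', hz', hz2', hz3'⟩ := key w' hwm' h8
  have hlz := (ClC_mem_PD.1 hz).1
  have hlz' := (ClC_mem_PD.1 hz').1
  have hlw := (ClC_mem_TL.1 hwm).1
  have hlw' := (ClC_mem_TL.1 hwm').1
  have hne : z ≠ z' := by
    intro h
    rw [h, hz2'] at hz2
    exact hww (Finset.singleton_injective hz2).symm
  have hLF : LF i e = {z, z'} := by
    symm
    apply Finset.eq_of_subset_of_card_le
    · intro x hx
      rw [mem_insert, mem_singleton] at hx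
      rcases hx with rfl | rfl
      · exact hz3
      · exact hz3'
    · rw [Finset.card_pair hne]
      exact hL
  refine ⟨z, z', hz, hz', hne, ?_, hLF, ?_⟩
  · rw [ClE_sts H hlz hz2, ClE_sts H hlz' hz2']
    exact hdis
  · funext x
    rw [he x, Pi.add_apply, hTL, hLF]
    unfold cl
    rw [hz2, hz2']
    simp only [Finset.mem_union, mem_insert, mem_singleton]
    have e1 : z ≠ w := by rintro rfl; omega
    have e2 : z ≠ w' := by rintro rfl; omega
    have e3 : z' ≠ w := by rintro rfl; omega
    have e4 : z' ≠ w' := by rintro rfl; omega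
    by_cases a1 : x = z
    · subst a1; simp [e1, e2, hne]
    · by_cases a2 : x = z'
      · subst a2; simp [e3, e4, a1]
      · by_cases a3 : x = w
        · subst a3; simp [a2, hww]
        · by_cases a4 : x = w'
          · subst a4; simp [a1, a3]
          · simp [a1, a2, a3, a4]

/-- Cores of energy at most four, all `up i z ≤ 3`, nothing touched above; as `cls4_low` without the
hypothesis on `PD`, with one more alternative. -/
theorem S5_cls4_low (H : Gr P r) {i : ℕ} (hi : 1 ≤ i) (hi2 : i + 1 ≤ r) {psi : P → P}
    (hM : Mat P i ∅ psi)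
    (h3 : ∀ z : P, lev z = i + 2 → up i z ≤ 3) {e : P → ℕ} (hc : IsCore i ∅ psi e)
    (hn : ∑ x, e x ≤ 4) (h2 : TU i e = ∅) :
    Rk (lv P i) 1 (Fe i e) ∨ (∃ z, lev z = i + 2 ∧ up i z = 3 ∧ e = cl z + sg z) ∨
      (∃ z v, lev z = i + 2 ∧ up i z = 3 ∧ v ∈ sts i z ∧ (∀ w ∈ uc z, v ∈ uc w) ∧
        e = cl z + sg v) ∨
      (∃ z z', z ∈ PD P i ∧ z' ∈ PD P i ∧ z ≠ z' ∧ Disjoint (sts i z) (sts i z') ∧
        e = cl z + cl z') := by
  classical
  by_cases hadm : AdmL i e ∧ AdmU i e
  swap
  · exact Or.inl (Rk_of_not_adm hadm 1)
  obtain ⟨hA, hB⟩ := hadm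
  have hir : i ≤ r := by omega
  have hE := energy_bound H hir hA hB
  have hL := card_TL_le H (i := i) e
  rcases Nat.lt_or_ge (TL i e).card 2 with hT | hT
  · left
    rcases Nat.eq_zero_or_pos (TL i e).card with h0 | h0
    · exact Rk_mono (by omega) (core_none H hi hi2 hc (Finset.card_eq_zero.1 h0) h2)
    · obtain ⟨w, hw⟩ := Finset.card_eq_one.1 (show (TL i e).card = 1 by omega)
      exact (core_one H hi hi2 hM hc hw h2).1
  have hT2 : (TL i e).card = 2 := by omega
  rcases two_touched H hir hA hB hT2 hn with ⟨z, hlz, hcz, hTz, hez⟩ | ⟨hLF, hind⟩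
  swap
  · rcases S5_second H hir h3 hB h2 hT2 hLF.le hind with h | ⟨z, z', h4, h5, h6, h7, -, h8⟩
    · exact Or.inl (Rk_of_cheap h)
    · exact Or.inr (Or.inr (Or.inr ⟨z, z', h4, h5, h6, h7, h8⟩))
  have hup := h3 z hlz
  have hsub : sts i z ⊆ lv P i := by
    intro v hv
    rw [mem_lv]
    exact (mem_sts.1 hv).1
  have hclsite : ∀ v, lev v = i → cl z v = 0 := by
    intro v hv
    unfold cl
    rw [if_neg]
    rintro (h | h)
    · rw [h] at hv; omega
    · have := ClC_lev H (mem_uc.1 h); omega
  rcases hez with hez | ⟨y, hey⟩
  · left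
    rw [hez]
    have h4 : Rk (lv P i) 1 (fun S => dd ^ 2 * chi (sts i z) ∅ S) :=
      Rk_chi (p := 2) hsub (Finset.empty_subset _) (by
        rw [Finset.card_empty, card_sts]; omega) dvd_rfl
    refine Rk_congr (fun S _ => ?_) h4
    rw [Fe_cl H hir hlz, hcz]
  · have hey1 : 1 ≤ e y := by
      rw [hey, Pi.add_apply]
      unfold sg
      rw [Pi.single_eq_same]
      omega
    rcases Nat.lt_trichotomy (lev y) i with hly | hly | hly
    · -- upper elements
      left
      rcases Nat.lt_or_ge (lev y + 1) i with hly2 | hly2
      · have := far_zero_of_TU H hir hB h2 (z := y) (by omega)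
        omega
      · have hly3 : lev y + 1 = i := by omega
        have hnear : y ∈ near P i := mem_near.2 (Or.inr hly3)
        have hTch : ∀ x, x ∈ Tch i e → x ∈ uc z := by
          intro x hx
          rcases mem_Tch.1 hx with hx | hx
          · rw [← hTz]; exact ClC_mem_TL.2 hx
          · have : x ∈ TU i e := ClC_mem_TU.2 hx
            rw [h2] at this
            exact absurd this (Finset.notMem_empty x)
        have hyuc : y ∉ uc z := by
          intro h
          have := ClC_lev H (mem_uc.1 h); omega
        rcases core_near hc hnear (by omega) with h4 | ⟨h4, h5⟩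
        · exact absurd (hTch y h4) hyuc
        · have hpz := hTch _ h5
          have hpl := ClC_lev H (mem_uc.1 hpz)
          have hyU : y ∈ dbU P i := by
            rcases Finset.mem_union.1 h4 with h6 | h6
            · have := (mem_dbL.1 h6).1; omega
            · exact h6
          obtain ⟨h6, h7⟩ := hM.upp y hyU (Finset.notMem_empty _)
          have hyT : y ∉ Tch i (cl z) := by
            intro h
            rcases mem_Tch.1 h with h | ⟨_, y', hy', hy2⟩
            · omega
            · have h8 := ClC_lev H hy'
              unfold cl at hy2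
              split_ifs at hy2 with h9
              · rcases h9 with h9 | h9
                · rw [h9] at h8; omega
                · have := ClC_lev H (mem_uc.1 h9); omega
              · omega
          have hcly : cl z y = 0 := by
            unfold cl
            rw [if_neg]
            rintro (h | h)
            · rw [h] at hly; omega
            · exact hyuc h
          have hzero : ∀ S, S ⊆ lv P i → (0 : A) = Fe i e S := by
            intro S _
            rw [hey]
            unfold sg
            rw [fact H hir hnear hyT hcly 1 S, Fe_cl H hir hlz]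
            unfold wt
            rw [if_neg (by omega)]
            unfold wtU chi
            by_cases h8 : sts i z ⊆ S ∧ Disjoint ∅ S
            · have h9 : ¬ ∀ v ∈ dc y, cl z v < 1 → v ∉ S := by
                intro hall
                have hne : (dc y).Nonempty := by
                  rw [← Finset.card_pos, (mem_dbU.1 hyU).2]; omega
                obtain ⟨v, hv⟩ := hne
                have hvl := ClC_lev H (mem_dc.1 hv)
                have hv2 : v ∈ sts i z := by
                  rw [mem_sts_iff H hlz]
                  exact ⟨psi y, hpz, by rw [h7]; exact hv⟩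
                refine hall v hv ?_ (h8.1 hv2)
                rw [hclsite v (by omega)]; omega
              rw [if_neg h9]; ring
            · rw [if_neg h8]; ring
          exact Rk_congr hzero (Rk_zero _ 1)
    · -- sites
      by_cases hcom : ∀ w ∈ uc z, y ∈ uc w
      · have hys : y ∈ sts i z := by
          rw [mem_sts_iff H hlz]
          have hne : (uc z).Nonempty := by
            rw [← Finset.card_pos, hcz]; omega
          obtain ⟨w, hw⟩ := hne
          exact ⟨w, hw, hcom w hw⟩
        by_cases hup3 : up i z = 3
        · exact Or.inr (Or.inr (Or.inl ⟨z, y, hlz, hup3, hys, hcom, hey⟩))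
        · left
          rw [hey]
          have h4 : Rk (lv P i) 1 (fun S => 1 * chi ((sts i z).erase y) ∅ S) :=
            Rk_chi (p := 0) ((Finset.erase_subset _ _).trans hsub) (Finset.empty_subset _) (by
              rw [Finset.card_empty, Finset.card_erase_of_mem hys, card_sts]; omega) (by simp)
          refine Rk_congr (fun S _ => ?_) h4
          rw [Fe_cl_v H hir hlz hly hcom, one_mul]
      · left
        rw [hey]
        exact Rk_of_cheap ((cheap_cl H hir hlz hcz (Or.inr ⟨hly, hcom⟩)).mono (by omega))
    · -- lower elements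
      rcases Nat.lt_or_ge (i + 1) (lev y) with hly2 | hly2
      · by_cases hyz : y = z
        · subst hyz
          by_cases hup3 : up i y = 3
          · exact Or.inr (Or.inl ⟨y, hlz, hup3, hey⟩)
          · left
            rw [hey]
            have h4 : Rk (lv P i) 1 (fun S => (xx ^ 2 * dd) * chi (sts i y) ∅ S) :=
              Rk_chi (p := 1) hsub (Finset.empty_subset _) (by
                rw [Finset.card_empty, card_sts]; omega) (by
                rw [pow_one]; exact Dvd.intro_left _ rfl)
            refine Rk_congr (fun S _ => ?_) h4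
            rw [Fe_cl_z H hir hlz, hcz]
        · -- another far element
          left
          apply Rk_of_cheap
          have hzcl : 0 < e z := by
            rw [hey, Pi.add_apply]
            unfold cl
            rw [if_pos (Or.inl rfl)]; omega
          have hind : ∀ x, e x = if x ∈ TL i e ∪ LF i e then 1 else 0 := by
            intro x
            have hex : e x = cl z x + sg y x := by rw [hey]; rfl
            by_cases hxy : x = y
            · have h4 : cl z x = 0 := by
                unfold cl
                rw [if_neg]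
                rintro (h | h)
                · exact hyz (hxy ▸ h)
                · have := ClC_lev H (mem_uc.1 h)
                  rw [hxy] at this; omega
              have h5 : sg y x = 1 := by
                unfold sg; rw [hxy, Pi.single_eq_same]
              rw [hex, h4, h5, if_pos]
              refine Finset.mem_union_right _ (ClC_mem_LF.2 ⟨by rw [hxy]; omega, ?_⟩)
              rw [hxy]; omega
            · have h5 : sg y x = 0 := by
                unfold sg; rw [Pi.single_eq_of_ne hxy]
              rw [hex, h5, add_zero]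
              unfold cl
              by_cases hx : x = z ∨ x ∈ uc z
              · rw [if_pos hx, if_pos]
                rcases hx with hx | hx
                · rw [hx]
                  exact Finset.mem_union_right _ (ClC_mem_LF.2 ⟨by omega, hzcl⟩)
                · rw [← hTz] at hx
                  exact Finset.mem_union_left _ hx
              · rw [if_neg hx, if_neg]
                intro h
                rcases Finset.mem_union.1 h with h | h
                · rw [hTz] at h
                  exact hx (Or.inr h)
                · have h6 := (ClC_mem_LF.1 h).2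
                  rw [hex, h5] at h6
                  unfold cl at h6
                  rw [if_neg hx] at h6
                  omega
          rcases S5_second H hir h3 hB h2 hT2 (by omega) hind with h | ⟨z1, z2, h4, h5, -, -, h8, -⟩
          · exact h
          · exfalso
            have h9 : z ∈ LF i e := ClC_mem_LF.2 ⟨by omega, hzcl⟩
            rw [h8, mem_insert, mem_singleton] at h9
            rcases h9 with h9 | h9
            · have := (ClC_mem_PD.1 h4).2.1
              rw [← h9] at this; omega
            · have := (ClC_mem_PD.1 h5).2.1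
              rw [← h9] at this; omega
      · have hly3 : lev y = i + 1 := by omega
        left
        by_cases hyuc : y ∈ uc z
        · rw [hey]
          exact Rk_of_cheap ((cheap_cl H hir hlz hcz (Or.inl hyuc)).mono (by omega))
        · exfalso
          have hTch : ∀ x, x ∈ Tch i e → x ∈ uc z := by
            intro x hx
            rcases mem_Tch.1 hx with hx | hx
            · rw [← hTz]; exact ClC_mem_TL.2 hx
            · have : x ∈ TU i e := ClC_mem_TU.2 hx
              rw [h2] at this
              exact absurd this (Finset.notMem_empty x)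
          have hnear : y ∈ near P i := mem_near.2 (Or.inl hly3)
          rcases core_near hc hnear (by omega) with h4 | ⟨h4, h5⟩
          · exact hyuc (hTch y h4)
          · have hpz := hTch _ h5
            have hpl := ClC_lev H (mem_uc.1 hpz)
            rcases Finset.mem_union.1 h4 with h6 | h6
            · have := (mem_dbU.1 (hM.low y h6 (Finset.notMem_empty _)).1).1
              omega
            · have := (mem_dbU.1 h6).1; omega

/-- mirror image of `S5_cls4_low` (`DualW`) -/
theorem S5_cls4_upp (H : Gr P r) {i : ℕ} (hi : 1 ≤ i) (hi2 : i + 1 ≤ r) {psi : P → P}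
    (hM : Mat P i ∅ psi)
    (h3 : ∀ x : P, lev x + 2 = i → dn i x ≤ 3) {e : P → ℕ} (hc : IsCore i ∅ psi e)
    (hn : ∑ x, e x ≤ 4) (h2 : TL i e = ∅) :
    Rk (lv P i) 1 (Fe i e) ∨ (∃ x, lev x + 2 = i ∧ dn i x = 3 ∧ e = cu x + sg x) ∨
      (∃ x v, lev x + 2 = i ∧ dn i x = 3 ∧ v ∈ stD i x ∧ (∀ u ∈ dc x, v ∈ dc u) ∧
        e = cu x + sg v) ∨
      (∃ x x', x ∈ PU P i ∧ x' ∈ PU P i ∧ x ≠ x' ∧ Disjoint (stD i x) (stD i x') ∧
        e = cu x + cu x') := by
  have hir : i ≤ r := by omega
  have hn' : ∑ x, eo e x ≤ 4 := by rw [ClD_sum]; exact hn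
  rcases S5_cls4_low H.dual (i := r - i) (by omega) (by omega) (ClD_mat H hir hM)
    (ClD_up H hir h3) (ClD_core H hir hc) hn' (ClD_TU H hir h2) with
    h | ⟨z, hz, hz2, hz3⟩ | ⟨z, v, hz, hz2, hv, huv, hz3⟩ | ⟨z, z', hz, hz', hne, hd, hz3⟩
  · exact Or.inl ((Rk_od H hir 1 e).1 h)
  · refine Or.inr (Or.inl ⟨ofDual z, ClD_lev H hir (x := ofDual z) hz, ?_, ?_⟩)
    · rw [← up_od H hir]
      exact hz2
    · apply ClD_inj
      have h5 : eo (cu (ofDual z) + sg (ofDual z)) = eo (cu (ofDual z)) + eo (sg (ofDual z)) := rfl
      rw [h5, cu_od, sg_od]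
      exact hz3
  · refine Or.inr (Or.inr (Or.inl ⟨ofDual z, ofDual v, ClD_lev H hir (x := ofDual z) hz, ?_, ?_, ?_, ?_⟩))
    · rw [← up_od H hir]
      exact hz2
    · have h6 := mem_sts.1 hv
      refine mem_stD.2 ⟨?_, ?_⟩
      · have h7 : lev (toDual (ofDual v)) = r - i := h6.1
        rw [lev_od H] at h7
        have h8 := H.hr (ofDual v)
        omega
      · exact h6.2
    · intro u hu
      have h9 : toDual u ∈ uc z := by
        have h10 : toDual u ∈ uc (toDual (ofDual z)) := by
          rw [uc_od]
          exact Finset.mem_map.2 ⟨u, hu, rfl⟩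
        exact h10
      have h11 := mem_uc.1 (huv _ h9)
      refine mem_dc.2 ?_
      exact toDual_covBy_toDual_iff.1 (by simpa using h11)
    · apply ClD_inj
      have h5 : eo (cu (ofDual z) + sg (ofDual v)) = eo (cu (ofDual z)) + eo (sg (ofDual v)) := rfl
      rw [h5, cu_od, sg_od]
      exact hz3
  · have hmem : ∀ t : Pᵒᵈ, t ∈ PD Pᵒᵈ (r - i) → ofDual t ∈ PU P i := by
      intro t ht
      rw [(PD_od H hir).1, Finset.mem_map] at ht
      obtain ⟨a, ha, rfl⟩ := ht
      exact ha
    have hst : ∀ t : Pᵒᵈ, ∀ v : P, v ∈ stD i (ofDual t) → toDual v ∈ sts (r - i) t := by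
      intro t v hv
      have h6 := mem_stD.1 hv
      refine mem_sts.2 ⟨?_, ?_⟩
      · rw [lev_od H]
        have h8 := H.hr v
        omega
      · exact h6.2
    refine Or.inr (Or.inr (Or.inr ⟨ofDual z, ofDual z', hmem z hz, hmem z' hz', hne, ?_, ?_⟩))
    · rw [Finset.disjoint_left] at hd ⊢
      intro v hv hv'
      exact hd (hst z v hv) (hst z' v hv')
    · apply ClD_inj
      have h5 : eo (cu (ofDual z) + cu (ofDual z')) = eo (cu (ofDual z)) + eo (cu (ofDual z')) := rfl
      rw [h5, cu_od, cu_od]
      exact hz3

end Pool.Agent.GaussPoset.Win
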