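import Pool.Agent.W_448s5_h63.FourB

/-! The mirror image of `trm_cl_cl`, and the families of the general identity (42). -/

namespace Pool.Agent.GaussPoset.Win

set_option linter.unusedSectionVars false

open Finset

universe u

variable {P : Type u} [Fintype P] [PartialOrder P] [DecidableEq P] {r : ℕ}

lemma S5_cu_pos {x y : P} (h : 0 < cu x y) : y = x ∨ y ∈ dc x := by
  unfold cu at h
  by_contra hcon
  rw [if_neg hcon] at h
  omega

lemma S5_cu_le (x y : P) : cu x y ≤ 1 := by
  unfold cu; split_ifs <;> omega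

/-- mirror image of `trm_cl_cl` -/
theorem trm_cu_cu (H : Gr P r) {i : ℕ} (hi : i ≤ r) {x x' : P} (hx : x ∈ PU P i)
    (hx' : x' ∈ PU P i) (hd : Disjoint (stD i x) (stD i x')) :
    4 ≤ (lv P i).card ∧ trm i (cu x + cu x') = xi ^ 2 * dd ^ ((lv P i).card - 2) := by
  classical
  obtain ⟨u, hu, hu2⟩ := S5_dc_PU hx
  obtain ⟨u', hu', hu2'⟩ := S5_dc_PU hx'
  have hc := S5_card_stD H hx
  have hc' := S5_card_stD H hx'
  have hlx := (PlD_mem_PU.1 hx).1
  have hlx' := (PlD_mem_PU.1 hx').1
  have hne : u ≠ u' := by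
    rintro rfl
    rw [ClE_stD H hlx hu, ClE_stD H hlx' hu', disjoint_self] at hd
    have h1 : (dc u).card = 0 := by rw [Finset.card_eq_zero]; exact hd
    omega
  have hs1 : stD i x ∪ stD i x' ⊆ lv P i := by
    intro v hv
    rcases Finset.mem_union.1 hv with h | h
    · exact mem_lv.2 (mem_stD.1 h).1
    · exact mem_lv.2 (mem_stD.1 h).1
  have hcu : (stD i x ∪ stD i x').card = 4 := by
    rw [Finset.card_union_of_disjoint hd, hc, hc']
  have hcard : 4 ≤ (lv P i).card := by
    rw [← hcu]; exact Finset.card_le_card hs1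
  refine ⟨hcard, ?_⟩
  have hmu : u ∈ dc x := by rw [hu]; exact mem_singleton_self u
  have hmu' : u' ∈ dc x' := by rw [hu']; exact mem_singleton_self u'
  have hlu : lev u + 1 = i := by have := lev_dc H hmu; omega
  have hlu' : lev u' + 1 = i := by have := lev_dc H hmu'; omega
  have hxx : x ≠ x' := by
    rintro rfl
    rw [hu] at hu'
    exact hne (Finset.singleton_injective hu')
  set e : P → ℕ := cu x + cu x' with he
  have hev : ∀ y, e y = cu x y + cu x' y := fun y => rfl
  have hcl : ∀ y, 0 < cu x y → y = x ∨ y = u := by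
    intro y hy
    rcases S5_cu_pos hy with h | h
    · exact Or.inl h
    · rw [hu, mem_singleton] at h
      exact Or.inr h
  have hcl' : ∀ y, 0 < cu x' y → y = x' ∨ y = u' := by
    intro y hy
    rcases S5_cu_pos hy with h | h
    · exact Or.inl h
    · rw [hu', mem_singleton] at h
      exact Or.inr h
  have hle1 : ∀ y, e y ≤ 1 := by
    intro y
    rw [hev]
    have h1 := S5_cu_le x y
    have h2 := S5_cu_le x' y
    by_contra hcon
    have h3 := hcl y (by omega)
    have h4 := hcl' y (by omega)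
    rcases h3 with h3 | h3 <;> rcases h4 with h4 | h4
    · exact hxx (h3.symm.trans h4)
    · rw [h3] at h4; rw [h4] at hlx; omega
    · rw [h3] at h4; rw [← h4] at hlx'; omega
    · exact hne (h3.symm.trans h4)
  have hex : e x = 1 := by
    have h1 := hle1 x
    have h2 : cu x x = 1 := ExpD_cu_x x
    have h3 := hev x
    omega
  have hex' : e x' = 1 := by
    have h1 := hle1 x'
    have h2 : cu x' x' = 1 := ExpD_cu_x x'
    have h3 := hev x'
    omega
  have heu : e u = 1 := by
    have h1 := hle1 u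
    have h2 : cu x u = 1 := ExpD_cu_dc hmu
    have h3 := hev u
    omega
  have heu' : e u' = 1 := by
    have h1 := hle1 u'
    have h2 : cu x' u' = 1 := ExpD_cu_dc hmu'
    have h3 := hev u'
    omega
  have hpos : ∀ {y}, 0 < e y → (y = x ∨ y = x') ∨ (y = u ∨ y = u') := by
    intro y hy
    rw [hev] at hy
    rcases Nat.eq_zero_or_pos (cu x y) with h | h
    · rcases hcl' y (by omega) with h1 | h1
      · exact Or.inl (Or.inr h1)
      · exact Or.inr (Or.inr h1)
    · rcases hcl y h with h1 | h1
      · exact Or.inl (Or.inl h1)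
      · exact Or.inr (Or.inl h1)
  have hlow : ∀ y, 0 < e y → lev y < i := by
    intro y hy
    rcases hpos hy with (h | h) | (h | h) <;> rw [h] <;> omega
  have h0 : ∀ y, i ≤ lev y → e y = 0 := by
    intro y hy
    by_contra hcon
    have := hlow y (Nat.pos_of_ne_zero hcon)
    omega
  have hnear : ∀ {y}, lev y + 1 = i → 0 < e y → y = u ∨ y = u' := by
    intro y hy hy2
    rcases hpos hy2 with (h | h) | h
    · rw [h] at hy; omega
    · rw [h] at hy; omega
    · exact h
  have key := ExpD_upp H (i := i) (e := e) (B := ∅) (C := {u, u'}) (D := stD i x ∪ stD i x')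
    (fun z hz => h0 z hz.le) (fun v hv => absurd hv (Finset.notMem_empty v))
    (fun v hv => by
      rw [mem_insert, mem_singleton] at hv
      rcases hv with h | h <;> rw [h] <;> omega)
    (fun v hv => by
      rcases Finset.mem_union.1 hv with h | h
      · exact (mem_stD.1 h).1
      · exact (mem_stD.1 h).1) (Finset.empty_subset _) ?_ ?_ ?_
  · rw [key, Finset.card_empty, Finset.sdiff_empty, Finset.card_pair hne, hcu]
    obtain ⟨b, hb⟩ : ∃ b, (lv P i).card = b + 4 := ⟨(lv P i).card - 4, by omega⟩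
    rw [hb, show b + 4 - 4 = b by omega, show b + 4 - 2 = b + 2 by omega,
      show 2 + b = b + 2 by omega]
  · intro v hv
    refine ⟨?_, fun h => absurd h (Finset.notMem_empty v)⟩
    rintro ⟨y, hvy, hlt⟩
    exfalso
    have h1 := hle1 y
    have h2 : e v = 0 := by omega
    have h4 := ExpC_cov H hvy
    rcases hpos (y := y) (by omega) with (h | h) | (h | h)
    · have h3 : v ∈ dc x := mem_dc.2 (h ▸ hvy)
      rw [hu, mem_singleton] at h3
      rw [h3] at h2; omega
    · have h3 : v ∈ dc x' := mem_dc.2 (h ▸ hvy)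
      rw [hu', mem_singleton] at h3
      rw [h3] at h2; omega
    · rw [h] at h4; omega
    · rw [h] at h4; omega
  · intro v hv
    rw [mem_insert, mem_singleton]
    constructor
    · rintro ⟨z, hz, hle⟩ h
      have h4 := ExpC_cov H hz
      have h5 : lev v + 1 = i ∧ e v = 1 := by
        rcases h with h | h <;> rw [h] <;> exact ⟨by omega, by omega⟩
      have h6 := h0 z (by omega)
      omega
    · intro h
      by_cases hvx : v = x
      · exact ⟨u, by rw [hvx]; exact mem_dc.1 hmu, by rw [hvx, hex, heu]⟩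
      · by_cases hvx' : v = x'
        · exact ⟨u', by rw [hvx']; exact mem_dc.1 hmu', by rw [hvx', hex', heu']⟩
        · refine ExpC_GD H (by omega) ?_
          by_contra hne2
          rcases hpos (Nat.pos_of_ne_zero hne2) with (h1 | h1) | h1
          · exact hvx h1
          · exact hvx' h1
          · exact h h1
  · intro w hw
    rw [Finset.mem_union, mem_stD_iff H hlx, mem_stD_iff H hlx']
    constructor
    · rintro ⟨y, hwy, hlt⟩
      have h3 := ExpC_cov H hwy
      rcases hnear (y := y) (by omega) (by omega) with h | h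
      · exact Or.inl ⟨u, hmu, mem_dc.2 (h ▸ hwy)⟩
      · exact Or.inr ⟨u', hmu', mem_dc.2 (h ▸ hwy)⟩
    · rintro (⟨t, ht, htw⟩ | ⟨t, ht, htw⟩)
      · rw [hu, mem_singleton] at ht
        subst ht
        refine ⟨t, mem_dc.1 htw, ?_⟩
        rw [h0 w hw.ge, heu]
        exact one_pos
      · rw [hu', mem_singleton] at ht
        subst ht
        refine ⟨t, mem_dc.1 htw, ?_⟩
        rw [h0 w hw.ge, heu']
        exact one_pos

/-- the sum of the configurations `cl z`, `z` in `T` -/
noncomputable def clS (T : Finset P) : P → ℕ := fun y => ∑ z ∈ T, cl z y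

/-- the sum of the configurations `cu x`, `x` in `T` -/
noncomputable def cuS (T : Finset P) : P → ℕ := fun y => ∑ z ∈ T, cu z y

open Classical in
/-- pairs in `PD` with disjoint sites -/
noncomputable def DDf (P : Type u) [Fintype P] [PartialOrder P] [DecidableEq P] (i : ℕ) :
    Finset (Finset P) := ((PD P i).powersetCard 2).filter
      (fun T => ∀ z ∈ T, ∀ z' ∈ T, z ≠ z' → Disjoint (sts i z) (sts i z'))

open Classical in
/-- pairs in `PU` with disjoint sites -/
noncomputable def DUf (P : Type u) [Fintype P] [PartialOrder P] [DecidableEq P] (i : ℕ) :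
    Finset (Finset P) := ((PU P i).powersetCard 2).filter
      (fun T => ∀ z ∈ T, ∀ z' ∈ T, z ≠ z' → Disjoint (stD i z) (stD i z'))

lemma mem_DDf {i : ℕ} {T : Finset P} : T ∈ DDf P i ↔ ∃ z z', z ∈ PD P i ∧ z' ∈ PD P i ∧ z ≠ z' ∧
    Disjoint (sts i z) (sts i z') ∧ T = {z, z'} := by
  classical
  unfold DDf
  rw [mem_filter, mem_powersetCard]
  constructor
  · rintro ⟨⟨h1, h2⟩, h3⟩
    obtain ⟨z, z', hne, rfl⟩ := Finset.card_eq_two.1 h2
    exact ⟨z, z', h1 (by simp), h1 (by simp), hne, h3 z (by simp) z' (by simp) hne, rfl⟩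
  · rintro ⟨z, z', hz, hz', hne, hd, rfl⟩
    refine ⟨⟨?_, Finset.card_pair hne⟩, ?_⟩
    · intro x hx
      rw [mem_insert, mem_singleton] at hx
      rcases hx with rfl | rfl
      · exact hz
      · exact hz'
    · intro a ha b hb hab
      rw [mem_insert, mem_singleton] at ha hb
      rcases ha with rfl | rfl <;> rcases hb with rfl | rfl
      · exact absurd rfl hab
      · exact hd
      · exact hd.symm
      · exact absurd rfl hab

lemma mem_DUf {i : ℕ} {T : Finset P} : T ∈ DUf P i ↔ ∃ z z', z ∈ PU P i ∧ z' ∈ PU P i ∧ z ≠ z' ∧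
    Disjoint (stD i z) (stD i z') ∧ T = {z, z'} := by
  classical
  unfold DUf
  rw [mem_filter, mem_powersetCard]
  constructor
  · rintro ⟨⟨h1, h2⟩, h3⟩
    obtain ⟨z, z', hne, rfl⟩ := Finset.card_eq_two.1 h2
    exact ⟨z, z', h1 (by simp), h1 (by simp), hne, h3 z (by simp) z' (by simp) hne, rfl⟩
  · rintro ⟨z, z', hz, hz', hne, hd, rfl⟩
    refine ⟨⟨?_, Finset.card_pair hne⟩, ?_⟩
    · intro x hx
      rw [mem_insert, mem_singleton] at hx
      rcases hx with rfl | rfl
      · exact hz
      · exact hz'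
    · intro a ha b hb hab
      rw [mem_insert, mem_singleton] at ha hb
      rcases ha with rfl | rfl <;> rcases hb with rfl | rfl
      · exact absurd rfl hab
      · exact hd
      · exact hd.symm
      · exact absurd rfl hab

lemma clS_pair {z z' : P} (h : z ≠ z') : clS {z, z'} = cl z + cl z' := by
  funext y
  unfold clS
  rw [Finset.sum_pair h, Pi.add_apply]

lemma cuS_pair {z z' : P} (h : z ≠ z') : cuS {z, z'} = cu z + cu z' := by
  funext y
  unfold cuS
  rw [Finset.sum_pair h, Pi.add_apply]

/-- outside level `i + 1` the configuration `clS T` is the indicator of `T` -/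
lemma clS_ind (H : Gr P r) {i : ℕ} {T : Finset P} (hT : ∀ z ∈ T, lev z = i + 2) {y : P}
    (hy : lev y ≠ i + 1) : clS T y = if y ∈ T then 1 else 0 := by
  classical
  unfold clS
  rw [Finset.sum_congr rfl (fun z hz => PlD_cl H (hT z hz) hy), Finset.sum_ite_eq]

lemma cuS_ind (H : Gr P r) {i : ℕ} {T : Finset P} (hT : ∀ z ∈ T, lev z + 2 = i) {y : P}
    (hy : lev y + 1 ≠ i) : cuS T y = if y ∈ T then 1 else 0 := by
  classical
  unfold cuS
  rw [Finset.sum_congr rfl (fun z hz => PlD_cu H (hT z hz) hy), Finset.sum_ite_eq]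

lemma DDf_lev {i : ℕ} {T : Finset P} (hT : T ∈ DDf P i) : T.card = 2 ∧ ∀ z ∈ T, lev z = i + 2 := by
  obtain ⟨z, z', hz, hz', hne, -, rfl⟩ := mem_DDf.1 hT
  refine ⟨Finset.card_pair hne, ?_⟩
  intro x hx
  rw [mem_insert, mem_singleton] at hx
  rcases hx with rfl | rfl
  · exact (PlD_mem_PD.1 hz).1
  · exact (PlD_mem_PD.1 hz').1

lemma DUf_lev {i : ℕ} {T : Finset P} (hT : T ∈ DUf P i) : T.card = 2 ∧ ∀ z ∈ T, lev z + 2 = i := by
  obtain ⟨z, z', hz, hz', hne, -, rfl⟩ := mem_DUf.1 hT
  refine ⟨Finset.card_pair hne, ?_⟩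
  intro x hx
  rw [mem_insert, mem_singleton] at hx
  rcases hx with rfl | rfl
  · exact (PlD_mem_PU.1 hz).1
  · exact (PlD_mem_PU.1 hz').1

end Pool.Agent.GaussPoset.Win
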