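import Pool.Agent.W_448s5_h63.FourC

/-! The general identity (42) at a good level, any number of maximal elements. -/

namespace Pool.Agent.GaussPoset.Win

set_option linter.unusedSectionVars false

open Finset

universe u

variable {P : Type u} [Fintype P] [PartialOrder P] [DecidableEq P] {r : ℕ}

open Classical in
/-- the expensive cores of energy four, general case -/
noncomputable def S42g (P : Type u) [Fintype P] [PartialOrder P] [DecidableEq P] (i : ℕ) :
    Finset (P → ℕ) := S42 P i ∪ (DDf P i).image clS ∪ (DUf P i).image cuS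

/-- level sums of the elements of `S42` -/
lemma S42_cases (H : Gr P r) {i : ℕ} {e : P → ℕ} (he : e ∈ S42 P i) :
    (PlD_L (i + 2) e = 2 ∧ ∃ z, lev z = i + 2 ∧ e z = 2) ∨ PlD_L (i + 2) e = 1 ∨
      PlD_L i e = 1 ∨ (PlD_L (i + 2) e = 0 ∧ ∃ x, lev x + 2 = i ∧ e x = 2) := by
  classical
  unfold S42 at he
  rw [mem_union, mem_union, mem_union, mem_union, mem_image, mem_image, mem_image, mem_image,
    mem_image] at he
  rcases he with (((⟨z, hz, rfl⟩ | ⟨p, hp, rfl⟩) | ⟨x, hx, rfl⟩) | ⟨p, hp, rfl⟩) | ⟨p, hp, rfl⟩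
  · left
    have h := (mem_Z3.1 hz).1
    refine ⟨?_, z, h, ?_⟩
    · rw [PlD_L_add, PlD_L_cl H h (by omega), PlD_L_sg, if_pos rfl, if_pos h]
    · rw [Pi.add_apply, ExpC_cl_z, ExpC_sg_self]
  · right; left
    have h1 : lev p.1 = i + 2 := (mem_Z3.1 (mem_ZV.1 hp).1).1
    have h2 : lev p.2 = i := (mem_sts.1 (mem_ZV.1 hp).2.1).1
    rw [PlD_L_add, PlD_L_cl H h1 (by omega), PlD_L_sg, if_pos rfl, if_neg (by omega)]
  · right; right; right
    have h := (mem_X3.1 hx).1
    refine ⟨?_, x, h, ?_⟩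
    · rw [PlD_L_add, PlD_L_cu H h (by omega), PlD_L_sg, if_neg (by omega)]
    · rw [Pi.add_apply, ExpD_cu_x, ExpD_sg_self]
  · right; right; left
    have h1 : lev p.1 + 2 = i := (mem_X3.1 (mem_XV.1 hp).1).1
    have h2 : lev p.2 = i := (mem_stD.1 (mem_XV.1 hp).2.1).1
    rw [PlD_L_add, PlD_L_cu H h1 (by omega), PlD_L_sg, if_neg (by omega), if_pos h2]
  · right; left
    have h1 : lev p.1 = i + 2 := (PlD_mem_PD.1 (mem_CC.1 hp).1).1
    have h2 : lev p.2 + 2 = i := (PlD_mem_PU.1 (mem_CC.1 hp).2.1).1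
    rw [PlD_L_add, PlD_L_cl H h1 (by omega), PlD_L_cu H h2 (by omega), if_pos rfl,
      if_neg (by omega)]

lemma clS_L (H : Gr P r) {i : ℕ} {T : Finset P} (hT : T ∈ DDf P i) :
    PlD_L (i + 2) (clS T) = 2 ∧ PlD_L i (clS T) = 0 ∧ (∀ y, lev y ≠ i + 1 → clS T y ≤ 1) := by
  classical
  obtain ⟨h1, h2⟩ := DDf_lev hT
  refine ⟨?_, ?_, ?_⟩
  · unfold PlD_L
    rw [Finset.sum_congr rfl (fun y hy => clS_ind H h2 (y := y) (by rw [mem_lv] at hy; omega)),
      Finset.sum_ite_mem, Finset.sum_const, smul_eq_mul, mul_one,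
      Finset.inter_eq_right.2 (fun z hz => mem_lv.2 (h2 z hz)), h1]
  · unfold PlD_L
    refine Finset.sum_eq_zero fun y hy => ?_
    rw [mem_lv] at hy
    rw [clS_ind H h2 (by omega), if_neg]
    intro h
    have := h2 y h
    omega
  · intro y hy
    rw [clS_ind H h2 hy]
    split_ifs <;> omega

lemma cuS_L (H : Gr P r) {i : ℕ} {T : Finset P} (hT : T ∈ DUf P i) :
    PlD_L (i + 2) (cuS T) = 0 ∧ PlD_L i (cuS T) = 0 ∧ (∀ y, lev y + 1 ≠ i → cuS T y ≤ 1) := by
  classical
  obtain ⟨h1, h2⟩ := DUf_lev hT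
  refine ⟨?_, ?_, ?_⟩
  · unfold PlD_L
    refine Finset.sum_eq_zero fun y hy => ?_
    rw [mem_lv] at hy
    rw [cuS_ind H h2 (by omega), if_neg]
    intro h
    have := h2 y h
    omega
  · unfold PlD_L
    refine Finset.sum_eq_zero fun y hy => ?_
    rw [mem_lv] at hy
    rw [cuS_ind H h2 (by omega), if_neg]
    intro h
    have := h2 y h
    omega
  · intro y hy
    rw [cuS_ind H h2 hy]
    split_ifs <;> omega

theorem sum_S42g (H : Gr P r) {i : ℕ} (f : (P → ℕ) → A) :
    ∑ e ∈ S42g P i, f e = ∑ e ∈ S42 P i, f e + ∑ T ∈ DDf P i, f (clS T) +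
      ∑ T ∈ DUf P i, f (cuS T) := by
  classical
  have d1 : Disjoint (S42 P i) ((DDf P i).image clS) := by
    rw [Finset.disjoint_left]
    intro e h1 h2
    obtain ⟨T, hT, rfl⟩ := mem_image.1 h2
    have h3 := clS_L H hT
    rcases S42_cases H h1 with ⟨h4, z, hz, hz2⟩ | h4 | h4 | ⟨h4, -⟩
    · have := h3.2.2 z (by omega)
      omega
    · omega
    · omega
    · omega
  have d2 : Disjoint (S42 P i ∪ (DDf P i).image clS) ((DUf P i).image cuS) := by
    rw [Finset.disjoint_left]
    intro e h1 h2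
    obtain ⟨T, hT, rfl⟩ := mem_image.1 h2
    have h3 := cuS_L H hT
    rcases mem_union.1 h1 with h1 | h1
    · rcases S42_cases H h1 with ⟨h4, -⟩ | h4 | h4 | ⟨h4, x, hx, hx2⟩
      · omega
      · omega
      · omega
      · have := h3.2.2 x (by omega)
        omega
    · obtain ⟨T', hT', h5⟩ := mem_image.1 h1
      have h6 := clS_L H hT'
      rw [h5] at h6
      omega
  have i1 : ∀ T ∈ DDf P i, ∀ T' ∈ DDf P i, clS T = clS T' → T = T' := by
    intro T hT T' hT' h
    ext y
    have h1 := DDf_lev hT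
    have h2 := DDf_lev hT'
    constructor
    · intro hy
      have h3 := h1.2 y hy
      have h4 := congrFun h y
      rw [clS_ind H h1.2 (by omega), clS_ind H h2.2 (by omega), if_pos hy] at h4
      by_contra hn
      rw [if_neg hn] at h4
      omega
    · intro hy
      have h3 := h2.2 y hy
      have h4 := congrFun h y
      rw [clS_ind H h1.2 (by omega), clS_ind H h2.2 (by omega), if_pos hy] at h4
      by_contra hn
      rw [if_neg hn] at h4
      omega
  have i2 : ∀ T ∈ DUf P i, ∀ T' ∈ DUf P i, cuS T = cuS T' → T = T' := by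
    intro T hT T' hT' h
    ext y
    have h1 := DUf_lev hT
    have h2 := DUf_lev hT'
    constructor
    · intro hy
      have h3 := h1.2 y hy
      have h4 := congrFun h y
      rw [cuS_ind H h1.2 (by omega), cuS_ind H h2.2 (by omega), if_pos hy] at h4
      by_contra hn
      rw [if_neg hn] at h4
      omega
    · intro hy
      have h3 := h2.2 y hy
      have h4 := congrFun h y
      rw [cuS_ind H h1.2 (by omega), cuS_ind H h2.2 (by omega), if_pos hy] at h4
      by_contra hn
      rw [if_neg hn] at h4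
      omega
  unfold S42g
  rw [Finset.sum_union d2, Finset.sum_union d1, Finset.sum_image i1, Finset.sum_image i2]

/-- a configuration of `S42g` is a core of energy four -/
lemma S42g_core (H : Gr P r) {i : ℕ} (hir : i ≤ r) (psi : P → P) {e : P → ℕ} (he : e ∈ S42g P i) :
    IsCore i ∅ psi e ∧ ∑ x, e x = 4 := by
  classical
  have hZ : ∀ z ∈ Z3 P i, (uc z).card = 2 := by
    intro z hz
    have h1 := mem_Z3.1 hz
    have h2 := up_le_four H h1.1
    have h3 := uc_card_le H z
    omega
  have hX : ∀ x ∈ X3 P i, (dc x).card = 2 := by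
    intro x hx
    have h1 := mem_X3.1 hx
    have h2 := dn_le_four H hir h1.1
    have h3 := dc_card_le H x
    omega
  unfold S42g at he
  rw [mem_union, mem_union] at he
  rcases he with (he | he) | he
  · unfold S42 at he
    rw [mem_union, mem_union, mem_union, mem_union, mem_image, mem_image, mem_image, mem_image,
      mem_image] at he
    rcases he with (((⟨z, hz, rfl⟩ | ⟨p, hp, rfl⟩) | ⟨x, hx, rfl⟩) | ⟨p, hp, rfl⟩) | ⟨p, hp, rfl⟩
    · have hz' := mem_Z3.1 hz
      refine ⟨isCore_cl_add H ∅ psi hz'.1 (fun x hx _ => ?_), ?_⟩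
      · rw [PlD_sg, if_neg]
        rintro rfl
        have := mem_near.1 hx
        omega
      · simp only [Pi.add_apply]
        rw [Finset.sum_add_distrib, sum_cl_val, sum_sg_val, hZ z hz]
    · have hp' := mem_ZV.1 hp
      have hz' := mem_Z3.1 hp'.1
      have hv := (mem_sts.1 hp'.2.1).1
      refine ⟨isCore_cl_add H ∅ psi hz'.1 (fun x hx _ => ?_), ?_⟩
      · rw [PlD_sg, if_neg]
        rintro rfl
        have := mem_near.1 hx
        omega
      · simp only [Pi.add_apply]
        rw [Finset.sum_add_distrib, sum_cl_val, sum_sg_val, hZ _ hp'.1]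
    · have hx' := mem_X3.1 hx
      refine ⟨isCore_cu_add H ∅ psi hx'.1 (fun y hy _ => ?_), ?_⟩
      · rw [PlD_sg, if_neg]
        rintro rfl
        have := mem_near.1 hy
        omega
      · simp only [Pi.add_apply]
        rw [Finset.sum_add_distrib, sum_cu_val, sum_sg_val, hX x hx]
    · have hp' := mem_XV.1 hp
      have hx' := mem_X3.1 hp'.1
      have hv := (mem_stD.1 hp'.2.1).1
      refine ⟨isCore_cu_add H ∅ psi hx'.1 (fun y hy _ => ?_), ?_⟩
      · rw [PlD_sg, if_neg]
        rintro rfl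
        have := mem_near.1 hy
        omega
      · simp only [Pi.add_apply]
        rw [Finset.sum_add_distrib, sum_cu_val, sum_sg_val, hX _ hp'.1]
    · have h1 := mem_CC.1 hp
      have h2 := PlD_mem_PD.1 h1.1
      have h3 := PlD_mem_PU.1 h1.2.1
      refine ⟨isCore_cl_cu H ∅ psi h2.1 h3.1, ?_⟩
      simp only [Pi.add_apply]
      rw [Finset.sum_add_distrib, sum_cl_val, sum_cu_val, h2.2.1, h3.2.1]
  · obtain ⟨T, hT, rfl⟩ := mem_image.1 he
    obtain ⟨z, z', hz, hz', hne, -, rfl⟩ := mem_DDf.1 hT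
    have h2 := PlD_mem_PD.1 hz
    have h3 := PlD_mem_PD.1 hz'
    rw [clS_pair hne]
    refine ⟨isCore_of ∅ psi fun x hx hne0 => ?_, ?_⟩
    · have h4 : x ∈ uc z ∨ x ∈ uc z' := by
        by_contra hn
        push Not at hn
        rw [mem_near] at hx
        rw [Pi.add_apply] at hne0
        rcases Nat.eq_zero_or_pos (cl z x) with h5 | h5
        · rcases ExpC_cl_pos (z := z') (x := x) (by omega) with h6 | h6
          · rw [h6] at hx; omega
          · exact hn.2 h6
        · rcases ExpC_cl_pos h5 with h6 | h6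
          · rw [h6] at hx; omega
          · exact hn.1 h6
      rw [mem_Tch]
      left
      rcases h4 with h4 | h4
      · have h5 := lev_uc H h4
        refine ⟨by omega, z, mem_uc.1 h4, ?_⟩
        rw [Pi.add_apply, ExpC_cl_z]
        omega
      · have h5 := lev_uc H h4
        refine ⟨by omega, z', mem_uc.1 h4, ?_⟩
        rw [Pi.add_apply, ExpC_cl_z]
        omega
    · simp only [Pi.add_apply]
      rw [Finset.sum_add_distrib, sum_cl_val, sum_cl_val, h2.2.1, h3.2.1]
  · obtain ⟨T, hT, rfl⟩ := mem_image.1 he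
    obtain ⟨z, z', hz, hz', hne, -, rfl⟩ := mem_DUf.1 hT
    have h2 := PlD_mem_PU.1 hz
    have h3 := PlD_mem_PU.1 hz'
    rw [cuS_pair hne]
    refine ⟨isCore_of ∅ psi fun x hx hne0 => ?_, ?_⟩
    · have h4 : x ∈ dc z ∨ x ∈ dc z' := by
        by_contra hn
        push Not at hn
        rw [mem_near] at hx
        rw [Pi.add_apply] at hne0
        rcases Nat.eq_zero_or_pos (cu z x) with h5 | h5
        · rcases S5_cu_pos (x := z') (y := x) (by omega) with h6 | h6
          · rw [h6] at hx; omega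
          · exact hn.2 h6
        · rcases S5_cu_pos h5 with h6 | h6
          · rw [h6] at hx; omega
          · exact hn.1 h6
      rw [mem_Tch]
      right
      rcases h4 with h4 | h4
      · have h5 := lev_dc H h4
        refine ⟨by omega, z, mem_dc.1 h4, ?_⟩
        rw [Pi.add_apply, ExpD_cu_x]
        omega
      · have h5 := lev_dc H h4
        refine ⟨by omega, z', mem_dc.1 h4, ?_⟩
        rw [Pi.add_apply, ExpD_cu_x]
        omega
    · simp only [Pi.add_apply]
      rw [Finset.sum_add_distrib, sum_cu_val, sum_cu_val, h2.2.1, h3.2.1]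

/-- cores of energy at most four are in `Rk _ 1` or in `S42g` -/
lemma S42g_key (H : Gr P r) {i : ℕ} (hi : 1 ≤ i) (hi2 : i + 1 ≤ r) (hg : Good P i) {psi : P → P}
    (hM : Mat P i ∅ psi) {e : P → ℕ} (hc : IsCore i ∅ psi e) (hn : ∑ x, e x ≤ 4) :
    Rk (lv P i) 1 (Fe i e) ∨ e ∈ S42g P i := by
  classical
  have h32 := I32' H hi hi2 hg
  have hsub : ∀ {e}, e ∈ S42 P i → e ∈ S42g P i := fun h =>
    mem_union_left _ (mem_union_left _ h)
  by_cases hadm : AdmL i e ∧ AdmU i e
  swap
  · exact Or.inl (Rk_of_not_adm hadm 1)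
  by_cases hTU : TU i e = ∅
  · rcases S5_cls4_low H hi hi2 hM h32.1 hc hn hTU with h | ⟨z, hz1, hz2, rfl⟩ |
      ⟨z, v, hz1, hz2, hv1, hv2, rfl⟩ | ⟨z, z', hz, hz', hne, hd, rfl⟩
    · exact Or.inl h
    · right
      apply hsub
      unfold S42
      exact mem_union_left _ (mem_union_left _ (mem_union_left _ (mem_union_left _
        (mem_image.2 ⟨z, mem_Z3.2 ⟨hz1, hz2⟩, rfl⟩))))
    · right
      apply hsub
      unfold S42
      exact mem_union_left _ (mem_union_left _ (mem_union_left _ (mem_union_right _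
        (mem_image.2 ⟨(z, v), mem_ZV.2 ⟨mem_Z3.2 ⟨hz1, hz2⟩, hv1, hv2⟩, rfl⟩))))
    · right
      unfold S42g
      exact mem_union_left _ (mem_union_right _ (mem_image.2 ⟨{z, z'},
        mem_DDf.2 ⟨z, z', hz, hz', hne, hd, rfl⟩, clS_pair hne⟩))
  · by_cases hTL : TL i e = ∅
    · rcases S5_cls4_upp H hi hi2 hM h32.2 hc hn hTL with h | ⟨x, hx1, hx2, rfl⟩ |
        ⟨x, v, hx1, hx2, hv1, hv2, rfl⟩ | ⟨z, z', hz, hz', hne, hd, rfl⟩
      · exact Or.inl h
      · right
        apply hsub
        unfold S42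
        exact mem_union_left _ (mem_union_left _ (mem_union_right _
          (mem_image.2 ⟨x, mem_X3.2 ⟨hx1, hx2⟩, rfl⟩)))
      · right
        apply hsub
        unfold S42
        exact mem_union_left _ (mem_union_right _
          (mem_image.2 ⟨(x, v), mem_XV.2 ⟨mem_X3.2 ⟨hx1, hx2⟩, hv1, hv2⟩, rfl⟩))
      · right
        unfold S42g
        exact mem_union_right _ (mem_image.2 ⟨{z, z'},
          mem_DUf.2 ⟨z, z', hz, hz', hne, hd, rfl⟩, cuS_pair hne⟩)
    · rcases cls4_both H hi hi2 hn hTL hTU with h | ⟨z, hz, x, hx, rfl, hd⟩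
      · exact Or.inl h
      · right
        apply hsub
        unfold S42
        exact mem_union_right _ (mem_image.2 ⟨(z, x), mem_CC.2 ⟨hz, hx, hd⟩, rfl⟩)

end Pool.Agent.GaussPoset.Win
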